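import Pool.Agent.TH146.Drops

/-!
# The dynamical degree drops by a fixed amount only on a proper closed set of parameters

A family of rational self-maps of `ℙ^N` depending rationally on parameters `T_1, …, T_k` is a
dominant rational self-map `f` of `ℙ^N` over the field `κ(T_1, …, T_k)`.
-/

set_option autoImplicit false

namespace Pool.Agent.Results.MP_eeb8df_ag.DropsNotDense

open Pool.Agent.TH146 MvPolynomial

universe u

/-- For every infinite field `κ`, every `N ≥ 1` and every dominant rational self-map `f` of `ℙ^N`
over `κ(T_1, …, T_k)`, the dynamical degree `δ(f)` exists, and for every `ε > 0` the set of the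
parameters `t` at which `f_t` is defined and dominant with `δ(f_t) ≤ δ(f) - ε` is contained in the
zero set of a nonzero polynomial. -/
theorem result (κ : Type u) [Field κ] [Infinite κ] (N k : ℕ) (hN : 1 ≤ N)
    (f : RatMap (FractionRing (MvPolynomial (Fin k) κ)) N) (hf : f.Dominant) :
    ∃ δ : ℝ, f.IsDynDegree δ ∧ ∀ ε : ℝ, 0 < ε → ∃ H : MvPolynomial (Fin k) κ, H ≠ 0 ∧
      ∀ (t : Fin k → κ) (g : RatMap κ N), IsMember f t g → g.Dominant →
        ∃ δt : ℝ, g.IsDynDegree δt ∧ (δt ≤ δ - ε → eval t H = 0) :=
  drops κ N k hN f hf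

end Pool.Agent.Results.MP_eeb8df_ag.DropsNotDense
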